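import Mathlib
import Pool.Agent.P.MP_0ad054_nt.Main

namespace Pool.Agent.Results.MP_0ad054_nt.AlmostPrimePair

/-- There are absolute constants `R` and `c > 0` such that every odd `n` is a sum of four squares
with `p = x^2+3y^2+5z^2+7w^2 ≥ 7`, where `p` and `p - 2` each have at most `R` prime factors
(with multiplicity) and every prime factor of `p (p - 2)` is at least `n ^ c`. -/
theorem result :
    ∃ (R : ℕ) (c : ℝ), 0 < c ∧ ∀ n : ℕ, Odd n →
      ∃ x y z w : ℤ, ∃ p : ℕ,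
        x ^ 2 + y ^ 2 + z ^ 2 + w ^ 2 = (n : ℤ) ∧
        (p : ℤ) = x ^ 2 + 3 * y ^ 2 + 5 * z ^ 2 + 7 * w ^ 2 ∧ 7 ≤ p ∧
        p.primeFactorsList.length ≤ R ∧ (p - 2).primeFactorsList.length ≤ R ∧
        ∀ q : ℕ, q.Prime → q ∣ p * (p - 2) → (n : ℝ) ^ c ≤ q :=
  Pool.Agent.P.MP_0ad054_nt.main

end Pool.Agent.Results.MP_0ad054_nt.AlmostPrimePair
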