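import Mathlib
import Pool.Agent.P.MP_0ad054_nt.Chen.All
import Pool.Agent.P.MP_0ad054_nt.Chen.Fin

namespace Pool.Agent.Results.MP_0ad054_nt.ChenAlmostAll

open Pool.Agent.P.MP_0ad054_nt.Sun Pool.Agent.P.MP_0ad054_nt.Chen

/-- For all odd `n ≤ N` outside a set of size `O_A (N / (log N) ^ A)` there is a representation
`n = x^2+y^2+z^2+w^2` with `p = x^2+3y^2+5z^2+7w^2` prime and `p - 2` a prime or a product of
two primes, all at least `n ^ (1 / 9)`. -/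
theorem result :
    ∀ A : ℕ, ∃ C : ℝ, ∀ N : ℕ, 2 ≤ N →
      (({n : ℕ | n ≤ N ∧ Odd n ∧ ¬ ∃ x y z w : ℤ, ∃ p : ℕ,
        x ^ 2 + y ^ 2 + z ^ 2 + w ^ 2 = (n : ℤ) ∧
        (p : ℤ) = x ^ 2 + 3 * y ^ 2 + 5 * z ^ 2 + 7 * w ^ 2 ∧ p.Prime ∧
        (p - 2).primeFactorsList.length ≤ 2 ∧
        ∀ q : ℕ, q.Prime → q ∣ p - 2 → (n : ℝ) ^ (1 / 9 : ℝ) ≤ q}.ncard : ℕ) : ℝ) ≤
        C * N / Real.log N ^ A :=
  Pool.Agent.P.MP_0ad054_nt.Chen.FinP.all_of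
    (Pool.Agent.P.MP_0ad054_nt.Chen.FinP.large2 trans2_all mom mom2 rg cenA_all cenB_all sphere
      delta primes_all chen_all sign)

end Pool.Agent.Results.MP_0ad054_nt.ChenAlmostAll
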