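import Mathlib
import Pool.Agent.P.MP_0ad054_nt.BG.All

namespace Pool.Agent.Results.MP_0ad054_nt.FixedGapAlmostAll

/-- For every `ε > 0` there is `k` such that for every admissible set `H` of at least `k` shifts,
every `A` and every `N ≥ 2` there are `a < b` in `H` such that all odd `n` in `[ε N, N]` outside a
set of size `O (N / (log N) ^ A)` have a representation `n = x^2+y^2+z^2+w^2` with
`p = x^2+3y^2+5z^2+7w^2` and `p - (b - a)` both prime. -/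
theorem result :
    ∀ ε : ℝ, 0 < ε → ∃ k : ℕ, ∀ H : Finset ℕ, k ≤ H.card →
      (∀ p : ℕ, p.Prime → ∃ t : ℕ, ∀ h ∈ H, ¬ p ∣ t + h) → ∀ A : ℕ, ∃ C : ℝ, ∀ N : ℕ, 2 ≤ N →
      ∃ a ∈ H, ∃ b ∈ H, a < b ∧
        (Set.ncard {n : ℕ | ε * N ≤ n ∧ n ≤ N ∧ Odd n ∧ ¬ ∃ x y z w : ℤ, ∃ p : ℕ,
          x ^ 2 + y ^ 2 + z ^ 2 + w ^ 2 = (n : ℤ) ∧
          (p : ℤ) = x ^ 2 + 3 * y ^ 2 + 5 * z ^ 2 + 7 * w ^ 2 ∧ p.Prime ∧
          (p - (b - a)).Prime} : ℝ) ≤ C * N / Real.log N ^ A :=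
  Pool.Agent.P.MP_0ad054_nt.BG.main_all

end Pool.Agent.Results.MP_0ad054_nt.FixedGapAlmostAll
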