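import Mathlib
import Pool.Agent.P.MP_0ad054_nt.Clu.All
import Pool.Agent.P.MP_0ad054_nt.Clu.Tup

namespace Pool.Agent.Results.MP_0ad054_nt.TupleAlmostAll

/-- For every `m` and every large enough admissible set `H`, all odd `n ≤ N` outside a set of size
`O (N / (log N) ^ A)` have a representation `n = x^2+y^2+z^2+w^2` such that
`p = x^2+3y^2+5z^2+7w^2` is a prime `u + h`, `h ∈ H`, with at least `m` primes `u + g`, `g ∈ H`,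
`g < h`. -/
theorem result :
    ∀ m : ℕ, ∃ k : ℕ, ∀ H : Finset ℕ, k ≤ H.card →
      (∀ q : ℕ, q.Prime → ∃ t : ℕ, ∀ h ∈ H, ¬ q ∣ t + h) →
      ∀ A : ℕ, ∃ C : ℝ, ∀ N : ℕ, 2 ≤ N →
      (({n : ℕ | n ≤ N ∧ Odd n ∧ ¬ ∃ x y z w : ℤ, ∃ p : ℕ,
        x ^ 2 + y ^ 2 + z ^ 2 + w ^ 2 = (n : ℤ) ∧
        (p : ℤ) = x ^ 2 + 3 * y ^ 2 + 5 * z ^ 2 + 7 * w ^ 2 ∧
        ∃ u : ℕ, ∃ h ∈ H, p = u + h ∧ p.Prime ∧
          m ≤ (H.filter fun g => g < h ∧ (u + g).Prime).card}.ncard : ℕ) : ℝ) ≤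
        C * N / Real.log N ^ A :=
  fun m => Pool.Agent.P.MP_0ad054_nt.Clu.tuple_of Pool.Agent.P.MP_0ad054_nt.Clu.transfer_all m

end Pool.Agent.Results.MP_0ad054_nt.TupleAlmostAll
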